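import Pool.Agent.Lib.MP_435286_al.CF.Main

/-!
Classification of the groups that occur as the group of units, or as a maximal subgroup, of a
monoid with context-free word problem.
-/

namespace Pool.Agent.Results.MP_435286_al.Classification

/-- The word problem `{u # reverse v : u = v in M}` of `M` with respect to the finite set `A`;
the alphabet is `Option A` and `none` is the extra symbol. -/
def wordProblem {M : Type} [Monoid M] (A : Finset M) : Language (Option A) :=
  {w | ∃ u v : List A, w = u.map some ++ none :: v.reverse.map some ∧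
    (u.map fun a : A => (a : M)).prod = (v.map fun a : A => (a : M)).prod}

/-- `M` has a finite generating set with context-free word problem. -/
def CFMonoid (M : Type) [Monoid M] : Prop :=
  ∃ A : Finset M, Submonoid.closure (A : Set M) = ⊤ ∧ (wordProblem A).IsContextFree

/-- `φ` is an isomorphism of `G` onto the group of units of `e M e`, where `e = φ 1`. -/
def OntoMaxSubgroup {G M : Type} [Group G] [Monoid M] (φ : G →ₙ* M) : Prop :=
  Function.Injective φ ∧
    ∀ x : M, x ∈ Set.range φ ↔
      φ 1 * x = x ∧ x * φ 1 = x ∧ ∃ y : M, x * y = φ 1 ∧ y * x = φ 1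

/-- `G` acts on a tree by automorphisms (edges may be inverted) with finite vertex stabilisers
and finitely many orbits of vertices. -/
def ActsOnTree (G : Type) [Group G] : Prop :=
  ∃ (V : Type) (_ : MulAction G V) (T : SimpleGraph V), T.IsTree ∧
    (∀ (g : G) (v w : V), T.Adj v w → T.Adj (g • v) (g • w)) ∧
    (∀ v : V, Finite (MulAction.stabilizer G v)) ∧ Finite (MulAction.orbitRel.Quotient G V)

open Pool.Agent.Lib.MP_435286_al in
theorem result (G : Type) [Group G] :
    List.TFAE
      [∃ (M : Type) (_ : Monoid M), CFMonoid M ∧ Nonempty (Mˣ ≃* G),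
       ∃ (M : Type) (_ : Monoid M) (φ : G →ₙ* M), CFMonoid M ∧ OntoMaxSubgroup φ,
       Countable G ∧ ActsOnTree G] := by
  have hmax : ∀ (M : Type) [Monoid M] (φ : G →ₙ* M), OntoMaxSubgroup φ ↔ IsMaxSub φ := by
    intro M _ φ
    constructor
    · rintro ⟨h1, h2⟩
      exact ⟨h1, fun x y a b c d => (h2 x).2 ⟨a, b, y, c, d⟩⟩
    · rintro ⟨h1, h2⟩
      refine ⟨h1, fun x => ⟨?_, fun ⟨a, b, y, c, d⟩ => h2 x y a b c d⟩⟩
      rintro ⟨g, rfl⟩
      refine ⟨by rw [← map_mul, one_mul], by rw [← map_mul, mul_one], φ g⁻¹, ?_, ?_⟩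
      · rw [← map_mul, mul_inv_cancel]
      · rw [← map_mul, inv_mul_cancel]
  tfae_have 1 → 2 := by
    rintro ⟨M, _, hM, ⟨e⟩⟩
    obtain ⟨φ, hφ⟩ := CF.maxSub_of_units e
    exact ⟨M, inferInstance, φ, hM, (hmax M φ).2 hφ⟩
  tfae_have 2 → 3 := by
    rintro ⟨M, _, φ, hM, hφ⟩
    exact CF.tree_of_maxSub φ ((CF.hasCFWP_iff M).2 hM) ((hmax M φ).1 hφ)
  tfae_have 3 → 1 := by
    rintro ⟨hc, ht⟩
    obtain ⟨M, _, hM, he⟩ := CF.units_of_tree hc ht
    exact ⟨M, inferInstance, (CF.hasCFWP_iff M).1 hM, he⟩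
  tfae_finish

end Pool.Agent.Results.MP_435286_al.Classification
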