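import Pool.Agent.Lib.MP_435286_al.Det2

/-!
The group of units and all maximal subgroups of a monoid with deterministic context-free word
problem are finitely generated.
-/

namespace Pool.Agent.Results.MP_435286_al.Deterministic

open Pool.Agent.Lib.MP_435286_al

/-- The word problem `{u # reverse v : u = v in M}` of `M` with respect to the finite set `A`;
the alphabet is `Option A` and `none` is the extra symbol. -/
def wordProblem {M : Type} [Monoid M] (A : Finset M) : Language (Option A) :=
  {w | ∃ u v : List A, w = u.map some ++ none :: v.reverse.map some ∧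
    (u.map fun a : A => (a : M)).prod = (v.map fun a : A => (a : M)).prod}

/-- `φ` is an isomorphism of `G` onto the group of units of `e M e`, where `e = φ 1`. -/
def OntoMaxSubgroup {G M : Type} [Group G] [Monoid M] (φ : G →ₙ* M) : Prop :=
  Function.Injective φ ∧
    ∀ x : M, x ∈ Set.range φ ↔
      φ 1 * x = x ∧ x * φ 1 = x ∧ ∃ y : M, x * y = φ 1 ∧ y * x = φ 1

theorem result (M : Type) [Monoid M] (A : Finset M) (hA : Submonoid.closure (A : Set M) = ⊤)
    (P : DPDA (Option A)) (hP : P.lang = wordProblem A) :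
    Group.FG Mˣ ∧
      ∀ (G : Type) [Group G] (φ : G →ₙ* M), OntoMaxSubgroup φ → Group.FG G := by
  have key : ∀ (G : Type) [Group G] (φ : G →ₙ* M), IsMaxSub φ → Group.FG G := fun G _ φ hφ =>
    fg_of_det (fun a : A => (a : M)) (by simpa using hA) P hP φ hφ
  refine ⟨key Mˣ ⟨fun g => (g : M), fun a b => by simp⟩ ⟨fun a b h => Units.ext h, ?_⟩,
    fun G _ φ h => key G φ ⟨h.1, fun x y a b c d => (h.2 x).2 ⟨a, b, y, c, d⟩⟩⟩
  intro x y _ _ h1 h2
  exact ⟨⟨x, y, h1, h2⟩, rfl⟩

end Pool.Agent.Results.MP_435286_al.Deterministic
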